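import Mathlib

/-!
# The two formulas for single-column queens domination: `A(n) < B(n)` infinitely often

If `A(n) ≥ B(n)` held for all large `n`, then `r_3(N) ≤ r_3(x) + r_3(y)` for some `x, y` with
`x + y ≤ (3 N + 5) / 4`, which forces `r_3(N) = O(N ^ (3/4))` and contradicts Behrend's theorem.
-/

set_option autoImplicit false

open Finset Real

namespace Pool.Agent.Results.MP_ca5fbf_co.InfinitelyOften

/-- `S` contains no three-term arithmetic progression `a, a + d, a + 2 d` with `d ≥ 1`. -/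
def APFree (S : Finset ℕ) : Prop := ¬ ∃ a d : ℕ, 1 ≤ d ∧ a ∈ S ∧ a + d ∈ S ∧ a + 2 * d ∈ S

/-- `r_3(m)`: the largest size of a subset of `{1, …, m}` without three-term progressions. -/
noncomputable def r3 (m : ℕ) : ℕ :=
  sSup {k | ∃ S : Finset ℕ, S ⊆ Finset.Icc 1 m ∧ APFree S ∧ S.card = k}

/-- `A(n) = n - r_3(⌈n/3⌉)`. -/
noncomputable def A (n : ℕ) : ℤ := n - r3 ⌈(n : ℚ) / 3⌉₊

/-- `B(n) = n - max_{k + l = ⌈n/2⌉} (r_3(⌈k/2⌉) + r_3(⌈l/2⌉))`. -/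
noncomputable def B (n : ℕ) : ℤ :=
  n - ((Finset.HasAntidiagonal.antidiagonal ⌈(n : ℚ) / 2⌉₊).sup
    (fun kl => r3 ⌈(kl.1 : ℚ) / 2⌉₊ + r3 ⌈(kl.2 : ℚ) / 2⌉₊) : ℕ)

lemma r3_bdd (m : ℕ) :
    BddAbove {k | ∃ S : Finset ℕ, S ⊆ Finset.Icc 1 m ∧ APFree S ∧ S.card = k} := by
  refine ⟨m, ?_⟩
  rintro k ⟨S, hS, _, rfl⟩
  have := Finset.card_le_card hS
  simpa using this

lemma r3_le (m : ℕ) : r3 m ≤ m := by
  apply csSup_le
  · exact ⟨0, ∅, Finset.empty_subset _, by rintro ⟨a, d, _, h, _⟩; simp at h, rfl⟩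
  · rintro k ⟨S, hS, _, rfl⟩
    have := Finset.card_le_card hS
    simpa using this

lemma roth_le_r3 (m : ℕ) : rothNumberNat m ≤ r3 m := by
  obtain ⟨t, ht, hcard, hfree⟩ := rothNumberNat_spec m
  apply le_csSup (r3_bdd m)
  refine ⟨t.image (· + 1), ?_, ?_, ?_⟩
  · intro x hx
    rw [mem_image] at hx
    obtain ⟨y, hy, rfl⟩ := hx
    have := mem_range.mp (ht hy)
    rw [mem_Icc]
    omega
  · rintro ⟨a, d, hd, h1, h2, h3⟩
    rw [mem_image] at h1 h2 h3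
    obtain ⟨x, hx, hx'⟩ := h1
    obtain ⟨y, hy, hy'⟩ := h2
    obtain ⟨z, hz, hz'⟩ := h3
    have := hfree (Finset.mem_coe.mpr hx) (Finset.mem_coe.mpr hy) (Finset.mem_coe.mpr hz)
      (by omega)
    omega
  · rw [card_image_of_injective _ (fun a b h => by simpa using h), hcard]

lemma half_power {x y : ℝ} (hx : 0 ≤ x) (hy : 0 ≤ y) :
    x ^ (3 / 4 : ℝ) + y ^ (3 / 4 : ℝ) ≤ 2 * ((x + y) / 2) ^ (3 / 4 : ℝ) := by
  have h := (Real.concaveOn_rpow (p := 3 / 4) (by norm_num) (by norm_num)).2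
    (show x ∈ Set.Ici (0 : ℝ) from hx) (show y ∈ Set.Ici (0 : ℝ) from hy)
    (show (0 : ℝ) ≤ 1 / 2 by norm_num) (show (0 : ℝ) ≤ 1 / 2 by norm_num) (by norm_num)
  simp only [smul_eq_mul] at h
  have e : 1 / 2 * x + 1 / 2 * y = (x + y) / 2 := by ring
  rw [e] at h
  linarith

lemma key_ineq {N a : ℝ} (hN : 30 ≤ N) (ha : 0 ≤ a) (haN : a ≤ (3 * N + 5) / 8) :
    2 * a ^ (3 / 4 : ℝ) ≤ N ^ (3 / 4 : ℝ) := by
  have h1 : 16 * a ^ 3 ≤ N ^ 3 := by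
    have h2 : a ^ 3 ≤ ((3 * N + 5) / 8) ^ 3 := pow_le_pow_left₀ ha haN 3
    have h3 : 16 * ((3 * N + 5) / 8) ^ 3 ≤ N ^ 3 := by
      have h4 : 3 * N + 5 ≤ (19 / 6) * N := by linarith
      have h5 : (3 * N + 5) ^ 3 ≤ ((19 / 6) * N) ^ 3 := pow_le_pow_left₀ (by linarith) h4 3
      have h6 : ((19 / 6 : ℝ) * N) ^ 3 ≤ 32 * N ^ 3 := by
        have : 0 ≤ N ^ 3 := by positivity
        nlinarith
      nlinarith
    linarith
  have h2 : (16 * a ^ 3) ^ (1 / 4 : ℝ) ≤ (N ^ 3) ^ (1 / 4 : ℝ) :=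
    Real.rpow_le_rpow (by positivity) h1 (by norm_num)
  have h3 : (16 * a ^ 3) ^ (1 / 4 : ℝ) = 2 * a ^ (3 / 4 : ℝ) := by
    rw [Real.mul_rpow (by norm_num) (by positivity), ← Real.rpow_natCast a 3,
      ← Real.rpow_mul ha]
    have h16 : (16 : ℝ) ^ (1 / 4 : ℝ) = 2 := by
      rw [show (16 : ℝ) = 2 ^ (4 : ℝ) by norm_num, ← Real.rpow_mul (by norm_num)]
      norm_num
    rw [h16]
    norm_num
  have h4 : (N ^ 3) ^ (1 / 4 : ℝ) = N ^ (3 / 4 : ℝ) := by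
    rw [← Real.rpow_natCast N 3, ← Real.rpow_mul (by linarith)]
    norm_num
  rw [h3, h4] at h2
  exact h2

/-- The recursion that would follow from `A(n) ≥ B(n)` for all `n ≥ n0`. -/
lemma recursion {n0 : ℕ} (h : ∀ n, n0 ≤ n → B n ≤ A n) (N : ℕ) (hN : n0 ≤ N) :
    ∃ x y : ℕ, 4 * (x + y) ≤ 3 * N + 5 ∧ r3 N ≤ r3 x + r3 y := by
  have h1 := h (3 * N) (by omega)
  unfold A B at h1
  have h2 : ⌈((3 * N : ℕ) : ℚ) / 3⌉₊ = N := by
    have : ((3 * N : ℕ) : ℚ) / 3 = N := by push_cast; ring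
    rw [this, Nat.ceil_natCast]
  rw [h2] at h1
  set M := ⌈((3 * N : ℕ) : ℚ) / 2⌉₊ with hM
  have hM2 : 2 * M ≤ 3 * N + 1 := by
    have h3 : (M : ℚ) < ((3 * N : ℕ) : ℚ) / 2 + 1 := Nat.ceil_lt_add_one (by positivity)
    have h4 : (2 * M : ℚ) < 3 * N + 2 := by push_cast at h3; linarith
    have h5 : 2 * M < 3 * N + 2 := by exact_mod_cast h4
    omega
  have hle : r3 N ≤ (Finset.HasAntidiagonal.antidiagonal M).sup
      (fun kl => r3 ⌈(kl.1 : ℚ) / 2⌉₊ + r3 ⌈(kl.2 : ℚ) / 2⌉₊) := by omega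
  obtain ⟨kl, hkl, hsup⟩ := Finset.exists_mem_eq_sup (Finset.HasAntidiagonal.antidiagonal M)
    ⟨(0, M), by rw [Finset.HasAntidiagonal.mem_antidiagonal]; simp⟩
    (fun kl => r3 ⌈(kl.1 : ℚ) / 2⌉₊ + r3 ⌈(kl.2 : ℚ) / 2⌉₊)
  rw [hsup] at hle
  rw [Finset.HasAntidiagonal.mem_antidiagonal] at hkl
  refine ⟨_, _, ?_, hle⟩
  have c1 : 2 * ⌈(kl.1 : ℚ) / 2⌉₊ ≤ kl.1 + 1 := by
    have h3 : ((⌈(kl.1 : ℚ) / 2⌉₊ : ℕ) : ℚ) < (kl.1 : ℚ) / 2 + 1 :=
      Nat.ceil_lt_add_one (by positivity)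
    have h4 : ((2 * ⌈(kl.1 : ℚ) / 2⌉₊ : ℕ) : ℚ) < ((kl.1 + 2 : ℕ) : ℚ) := by
      push_cast; linarith
    have h5 : 2 * ⌈(kl.1 : ℚ) / 2⌉₊ < kl.1 + 2 := by exact_mod_cast h4
    omega
  have c2 : 2 * ⌈(kl.2 : ℚ) / 2⌉₊ ≤ kl.2 + 1 := by
    have h3 : ((⌈(kl.2 : ℚ) / 2⌉₊ : ℕ) : ℚ) < (kl.2 : ℚ) / 2 + 1 :=
      Nat.ceil_lt_add_one (by positivity)
    have h4 : ((2 * ⌈(kl.2 : ℚ) / 2⌉₊ : ℕ) : ℚ) < ((kl.2 + 2 : ℕ) : ℚ) := by
      push_cast; linarith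
    have h5 : 2 * ⌈(kl.2 : ℚ) / 2⌉₊ < kl.2 + 2 := by exact_mod_cast h4
    omega
  omega

lemma upper {n0 : ℕ} (h : ∀ n, n0 ≤ n → B n ≤ A n) (N : ℕ) :
    (r3 N : ℝ) ≤ ((n0 : ℝ) + 30) * (N : ℝ) ^ (3 / 4 : ℝ) := by
  induction N using Nat.strong_induction_on with
  | _ N ih =>
    rcases Nat.lt_or_ge N (n0 + 30) with hlt | hge
    · rcases Nat.eq_zero_or_pos N with h0 | h0
      · subst h0
        have := r3_le 0
        have h1 : r3 0 = 0 := by omega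
        rw [h1, Nat.cast_zero]
        positivity
      · have h1 : (r3 N : ℝ) ≤ N := by exact_mod_cast r3_le N
        have h2 : (1 : ℝ) ≤ (N : ℝ) ^ (3 / 4 : ℝ) :=
          Real.one_le_rpow (by exact_mod_cast h0) (by norm_num)
        have h3 : (N : ℝ) ≤ (n0 : ℝ) + 30 := by exact_mod_cast hlt.le
        have h4 : (0 : ℝ) ≤ (n0 : ℝ) + 30 := by positivity
        nlinarith
    · obtain ⟨x, y, hxy, hr⟩ := recursion h N (by omega)
      have hx := ih x (by omega)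
      have hy := ih y (by omega)
      have h1 : (r3 N : ℝ) ≤ r3 x + r3 y := by exact_mod_cast hr
      have h2 := half_power (x := (x : ℝ)) (y := (y : ℝ)) (by positivity) (by positivity)
      have h3 := key_ineq (N := (N : ℝ)) (a := ((x : ℝ) + y) / 2)
        (by exact_mod_cast (show 30 ≤ N by omega)) (by positivity) (by
          have : (4 * ((x : ℝ) + y)) ≤ 3 * N + 5 := by exact_mod_cast hxy
          linarith)
      have h4 : (0 : ℝ) ≤ (n0 : ℝ) + 30 := by positivity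
      calc (r3 N : ℝ) ≤ r3 x + r3 y := h1
        _ ≤ ((n0 : ℝ) + 30) * ((x : ℝ) ^ (3 / 4 : ℝ) + (y : ℝ) ^ (3 / 4 : ℝ)) := by linarith
        _ ≤ ((n0 : ℝ) + 30) * (N : ℝ) ^ (3 / 4 : ℝ) := by
            apply mul_le_mul_of_nonneg_left _ h4
            linarith

theorem result : ∀ n0 : ℕ, ∃ n : ℕ, n0 ≤ n ∧ 0 < n ∧ A n < B n := by
  intro n0
  by_contra hcon
  push Not at hcon
  have h : ∀ n, n0 + 1 ≤ n → B n ≤ A n := fun n hn => hcon n (by omega) (by omega)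
  set C : ℝ := ((n0 + 1 : ℕ) : ℝ) + 30 with hC
  have hCpos : 0 < C := by positivity
  set s : ℝ := 17 + Real.log C with hs
  have hlogC : 0 ≤ Real.log C := by
    apply Real.log_nonneg
    have : (0 : ℝ) ≤ ((n0 + 1 : ℕ) : ℝ) := by positivity
    linarith
  obtain ⟨N, hN⟩ := exists_nat_ge (Real.exp (s ^ 2))
  have hNpos : (0 : ℝ) < N := lt_of_lt_of_le (Real.exp_pos _) hN
  have hlog : s ^ 2 ≤ Real.log N := by
    rw [Real.le_log_iff_exp_le hNpos]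
    exact hN
  set u : ℝ := Real.sqrt (Real.log N) with hu
  have hsu : s ≤ u := by
    rw [hu]
    exact Real.le_sqrt_of_sq_le hlog
  have hu2 : u ^ 2 = Real.log N := by
    rw [hu]
    exact Real.sq_sqrt (le_trans (by positivity) hlog)
  have hup := upper h N
  have hlow : (N : ℝ) * Real.exp (-4 * Real.sqrt (Real.log N)) ≤ r3 N := by
    have h1 := Behrend.roth_lower_bound (N := N)
    have h2 : (rothNumberNat N : ℝ) ≤ r3 N := by exact_mod_cast roth_le_r3 N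
    linarith
  have h1 : (N : ℝ) * Real.exp (-4 * u) ≤ C * (N : ℝ) ^ (3 / 4 : ℝ) := le_trans hlow hup
  have hNe : (N : ℝ) = Real.exp (u ^ 2) := by rw [hu2, Real.exp_log hNpos]
  have h2 : (N : ℝ) ^ (3 / 4 : ℝ) = Real.exp (u ^ 2 * (3 / 4)) := by
    rw [hNe, ← Real.exp_mul]
  have hCe : C = Real.exp (Real.log C) := (Real.exp_log hCpos).symm
  rw [h2, hCe] at h1
  rw [hNe, ← Real.exp_add, ← Real.exp_add, Real.exp_le_exp] at h1
  have h3 : s = 17 + Real.log C := hs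
  nlinarith

end Pool.Agent.Results.MP_ca5fbf_co.InfinitelyOften
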